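import Pool.Agent.helper12.BM.Dense

/-!
# MP_dd9c6f_gt: dense subspaces of products
-/

set_option autoImplicit false

open Set Cardinal Pool.Agent.helper12.BM

namespace Pool.Agent.Results.MP_dd9c6f_gt.DenseSubspaces

theorem result : ∀ (I : Type) (Y : I → Type) [∀ i, TopologicalSpace (Y i)] (E : Set (∀ i, Y i))
    (κ : Cardinal.{0}) (m : ℕ), ℵ₀ ≤ κ → Dense E →
    (∀ i, ∃ B : Set (Set (Y i)), PiBase B ∧ (∀ V ∈ B, interior (closure V) = V) ∧ Mild κ m B) →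
    (∀ U ∈ pg {W : Set E | NO W}, ∃ A, Cellular U A ∧ κ ≤ #A) →
    (m = 0 ∨ plus κ m ≤ #{i | ∃ O O' : Set (Y i), NO O ∧ NO O' ∧ Disjoint O O'}) →
    HasStrategy E → HasTactic E (m + 2) :=
  fun _ _ _ _ _ m hκ hE hfac hcell hm hs => hasTactic_dense hκ m hE hfac hcell hm hs

end Pool.Agent.Results.MP_dd9c6f_gt.DenseSubspaces
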