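import Pool.Agent.helper12.BM.Prod

/-!
# MP_dd9c6f_gt: products of arbitrary spaces
-/

set_option autoImplicit false

open Set Cardinal Pool.Agent.helper12.BM

namespace Pool.Agent.Results.MP_dd9c6f_gt.ProductSpaces

theorem result : ∀ (I : Type) (Y : I → Type) [∀ i, TopologicalSpace (Y i)] (κ : Cardinal.{0})
    (m : ℕ), ℵ₀ ≤ κ → (∀ i, ∃ B : Set (Set (Y i)), PiBase B ∧ Mild κ m B) →
    (∀ U ∈ pg {W : Set (∀ i, Y i) | NO W}, ∃ A, Cellular U A ∧ κ ≤ #A) →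
    (m = 0 ∨ plus κ m ≤ #{i | ∃ O : Set (Y i), NO O ∧ O ≠ Set.univ}) →
    HasStrategy (∀ i, Y i) → HasTactic (∀ i, Y i) (m + 2) :=
  fun _ _ _ _ m hκ hfac hcell hm hs => hasTactic_pi hκ m hfac hcell hm hs

end Pool.Agent.Results.MP_dd9c6f_gt.ProductSpaces
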