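import Pool.Agent.helper12.BM.Bow

/-!
# MP_dd9c6f_gt: the property of the question, relative to a rank function, with ladders
-/

set_option autoImplicit false

open Set Cardinal Pool.Agent.helper12.BM

namespace Pool.Agent.Results.MP_dd9c6f_gt.RankedBowtie

theorem result : ∀ (X : Type) [TopologicalSpace X] (n : ℕ) (B : Set (Set X))
    (r : Set X → Ordinal.{0}), PiBase B →
    (∀ U ∈ pg B, ∃ A, Cellular U A ∧ #{V | V ∈ B ∧ U ⊆ V ∧ r V ≤ r U} ≤ plus #A n) →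
    (∀ U ∈ pg B, ∀ κ : Cardinal.{0}, ℵ₀ ≤ κ →
      Order.succ κ ≤ #{V | V ∈ B ∧ U ⊆ V ∧ r V ≤ r U} →
      #{V | V ∈ B ∧ U ⊆ V ∧ r V ≤ r U} ≤ plus κ n →
      Ladder U (Order.succ κ) ∨ ∀ U' ∈ pg B, U' ⊆ U → r U ≤ r U' →
        ∃ A, Cellular U' A ∧ Order.succ κ ≤ #A) →
    HasStrategy X → HasTactic X (n + 2) :=
  fun _ _ _ _ _ hB hb hl hs => hasTactic_of_bowtie hB hb hl hs

end Pool.Agent.Results.MP_dd9c6f_gt.RankedBowtie
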